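import Pool.Agent.Y142.ZD.Stm
import Pool.Agent.Y142.ZI.Resc
import Pool.Agent.Y547.ZI.Nice

set_option autoImplicit false

/-! Project Y142-ZD, task KRQ: Krasner, an equivariant bijection of roots (helper331). -/

open Polynomial Filter Topology
open Pool.Agent.Y142.ZI Pool.Agent.Y142.ZD
open Pool.Agent.Y142.ZS (Generic)

namespace Pool.Agent.Y331.ZD

section ab

variable {L : Type} [NormedField L] [IsUltrametricDist L]

lemma um_add {x y : L} {μ : ℝ} (hx : ‖x‖ < μ) (hy : ‖y‖ < μ) : ‖x + y‖ < μ :=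
  (IsUltrametricDist.norm_add_le_max x y).trans_lt (max_lt hx hy)

lemma um_sub {x y : L} {μ : ℝ} (hx : ‖x‖ < μ) (hy : ‖y‖ < μ) : ‖x - y‖ < μ := by
  rw [sub_eq_add_neg]
  exact um_add hx (by rwa [norm_neg])

/-- the value of a polynomial with small coefficients -/
lemma ev_small {D : L[X]} {ε C : ℝ} {n : ℕ} (hε : 0 ≤ ε) (hC : 1 ≤ C)
    (hD : ∀ k, ‖D.coeff k‖ ≤ ε) (hn : D.natDegree ≤ n) {x : L} (hx : ‖x‖ ≤ C) :
    ‖D.eval x‖ ≤ ε * C ^ n := by
  rw [eval_eq_sum_range]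
  apply IsUltrametricDist.norm_sum_le_of_forall_le_of_nonneg (by positivity)
  intro i hi
  rw [norm_mul, norm_pow]
  have h1 : ‖x‖ ^ i ≤ C ^ n :=
    (pow_le_pow_left₀ (norm_nonneg _) hx i).trans
      (pow_le_pow_right₀ hC (by have := Finset.mem_range.1 hi; omega))
  exact mul_le_mul (hD i) h1 (by positivity) hε

omit [IsUltrametricDist L] in
lemma ms_near {μ : ℝ} (hμ : 0 ≤ μ) (b : L) : ∀ s : Multiset L, (∀ r ∈ s, μ ≤ ‖b - r‖) →
    μ ^ s.card ≤ ‖(s.map fun r => b - r).prod‖ := by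
  intro s
  induction s using Multiset.induction_on with
  | empty => intro _; simp
  | cons a s ih =>
    intro h
    rw [Multiset.map_cons, Multiset.prod_cons, norm_mul, Multiset.card_cons, pow_succ, mul_comm]
    exact mul_le_mul (h a (Multiset.mem_cons_self a s))
      (ih fun r hr => h r (Multiset.mem_cons_of_mem hr)) (by positivity) (norm_nonneg _)

variable [IsAlgClosed L] {J : Type} [Fintype J] {b : J → L} {μ ε C₁ : ℝ}

/-- a polynomial close to `∏ (X - b_j)` splits, with roots close to the `b_j` -/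
lemma near_split (hμ0 : 0 < μ) (hC : 1 ≤ C₁) (hb : ∀ j, ‖b j‖ ≤ C₁)
    (hbb : ∀ i j, i ≠ j → μ ≤ ‖b i - b j‖)
    (hε : 0 ≤ ε) (hεμ : ε * C₁ ^ Fintype.card J < μ ^ Fintype.card J) {P : L[X]} (hP : P.Monic)
    (hdeg : P.natDegree = Fintype.card J) (hcl : ∀ k, ‖(P - ∏ j, (X - C (b j))).coeff k‖ ≤ ε) :
    ∃ r : J → L, Function.Injective r ∧ (∀ j, ‖r j - b j‖ < μ) ∧ P = ∏ j, (X - C (r j)) := by
  classical
  have hspl : P.Splits := IsAlgClosed.splits P
  have hcard : P.roots.card = Fintype.card J := by rw [← hspl.natDegree_eq_card_roots, hdeg]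
  have hprodd : (∏ j, (X - C (b j)) : L[X]).natDegree = Fintype.card J := by
    rw [natDegree_prod_of_monic _ _ fun j _ => monic_X_sub_C _,
      Finset.sum_congr rfl fun j _ => natDegree_X_sub_C _]
    simp
  have hnd : (P - ∏ j, (X - C (b j))).natDegree ≤ Fintype.card J := by
    refine (natDegree_sub_le _ _).trans ?_
    rw [hdeg, hprodd, max_self]
  have h1 : ∀ j, ∃ r, r ∈ P.roots ∧ ‖r - b j‖ < μ := by
    intro j
    by_contra hcon
    push Not at hcon
    have h2 : (∏ j, (X - C (b j)) : L[X]).eval (b j) = 0 := by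
      rw [eval_prod]
      exact Finset.prod_eq_zero (Finset.mem_univ j) (by simp)
    have h3 : ‖P.eval (b j)‖ ≤ ε * C₁ ^ Fintype.card J := by
      have := ev_small hε hC hcl hnd (hb j)
      rwa [eval_sub, h2, sub_zero] at this
    rw [hspl.eval_eq_prod_roots_of_monic hP] at h3
    have h4 := ms_near hμ0.le (b j) P.roots (fun r hr => by rw [norm_sub_rev]; exact hcon r hr)
    rw [hcard] at h4
    linarith
  choose r hr hrb using h1
  have hinj : Function.Injective r := by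
    intro i j hij
    by_contra hne
    have h5 : ‖b i - b j‖ < μ := by
      have : b i - b j = (r j - b j) - (r i - b i) := by rw [hij]; ring
      rw [this]
      exact um_sub (hrb j) (hrb i)
    exact absurd (hbb i j hne) (not_le.mpr h5)
  refine ⟨r, hinj, hrb, ?_⟩
  have hnd : (Finset.univ.val.map r).Nodup := Multiset.Nodup.map hinj Finset.univ.nodup
  have hle : Finset.univ.val.map r ≤ P.roots := by
    rw [Multiset.le_iff_subset hnd]
    intro s hs
    obtain ⟨j, _, rfl⟩ := Multiset.mem_map.mp hs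
    exact hr j
  have heq : Finset.univ.val.map r = P.roots := by
    refine Multiset.eq_of_le_of_card_le hle ?_
    rw [hcard, Multiset.card_map, Finset.card_val, Finset.card_univ]
  conv_lhs => rw [hspl.eq_prod_roots_of_monic hP, ← heq, Multiset.map_map]
  rfl

end ab

variable {ℓ : ℕ} [hℓ : Fact ℓ.Prime]

lemma norm_map (x : ℚ_[ℓ]) : ‖algebraMap ℚ_[ℓ] (AlgebraicClosure ℚ_[ℓ]) x‖ = ‖x‖ :=
  PadicAlgCl.norm_extends ℓ x

lemma exists_mu {K : Type} [Finite K] (f : K → ℝ) (p : K → Prop) (h : ∀ k, p k → 0 < f k) :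
    ∃ μ : ℝ, 0 < μ ∧ μ ≤ 1 ∧ ∀ k, p k → μ ≤ f k := by
  have h1 : ∀ᶠ μ in 𝓝[>] (0 : ℝ), 0 < μ ∧ μ ≤ 1 ∧ ∀ k, p k → μ ≤ f k := by
    refine (eventually_mem_nhdsWithin).and (Eventually.and ?_ (eventually_all.2 fun k => ?_))
    · exact nhdsWithin_le_nhds (Iic_mem_nhds one_pos)
    · by_cases hk : p k
      · filter_upwards [nhdsWithin_le_nhds (Iic_mem_nhds (h k hk))] with μ hμ _
        exact hμ
      · exact Eventually.of_forall fun μ h' => (hk h').elim
  exact h1.exists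

lemma exists_bd {K : Type} [Finite K] (f : K → ℝ) : ∃ M : ℝ, 1 ≤ M ∧ ∀ k, f k ≤ M := by
  obtain ⟨M, hM⟩ := (Set.finite_range f).bddAbove
  exact ⟨max 1 M, le_max_left _ _, fun k => (hM ⟨k, rfl⟩).trans (le_max_right _ _)⟩

lemma norm_inv' (τ : AlgebraicClosure ℚ_[ℓ] ≃ₐ[ℚ_[ℓ]] AlgebraicClosure ℚ_[ℓ])
    (x : AlgebraicClosure ℚ_[ℓ]) : ‖τ x‖ = ‖x‖ := by
  rw [← PadicAlgCl.spectralNorm_eq, ← PadicAlgCl.spectralNorm_eq]
  exact (spectralNorm_eq_of_equiv τ x).symm

lemma root_aut (τ : AlgebraicClosure ℚ_[ℓ] ≃ₐ[ℚ_[ℓ]] AlgebraicClosure ℚ_[ℓ])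
    {x : AlgebraicClosure ℚ_[ℓ]} {R : ℚ_[ℓ][X]} (hx : aeval x R = 0) : aeval (τ x) R = 0 := by
  have := Polynomial.aeval_algHom_apply (τ.toAlgHom) x R
  rw [hx, map_zero] at this
  exact this

/-- task KRQ -/
theorem t : S_KRQ := by
  classical
  intro ℓ _ hℓ2 R₀ hR₀ hsep heven
  set L := AlgebraicClosure ℚ_[ℓ] with hL
  set i : ℚ_[ℓ] →+* L := algebraMap ℚ_[ℓ] L with hi
  have hnorm : ∀ x : ℚ_[ℓ], ‖i x‖ = ‖x‖ := norm_map
  -- the roots of `R₀`
  set J : Type := {r : L // r ∈ (R₀.map i).roots.toFinset} with hJ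
  set b : J → L := Subtype.val with hb
  have hbinj : Function.Injective b := Subtype.val_injective
  have hsepP : (R₀.map i).Separable := hsep.map
  have hndR : (R₀.map i).roots.Nodup := nodup_roots hsepP
  have hcardJ : Fintype.card J = R₀.natDegree := by
    rw [Fintype.card_coe, Multiset.toFinset_card_of_nodup hndR,
      ← (IsAlgClosed.splits (R₀.map i)).natDegree_eq_card_roots, natDegree_map]
  have hroot0 : ∀ s : L, aeval s R₀ = 0 ↔ ∃ j : J, b j = s := by
    intro s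
    constructor
    · intro h
      refine ⟨⟨s, ?_⟩, rfl⟩
      rw [Multiset.mem_toFinset, mem_roots (hR₀.map i).ne_zero, IsRoot, eval_map, ← aeval_def]
      exact h
    · rintro ⟨⟨s', hs'⟩, rfl⟩
      rw [Multiset.mem_toFinset, mem_roots (hR₀.map i).ne_zero, IsRoot, eval_map, ← aeval_def] at hs'
      exact hs'
  have hprod0 : R₀.map i = ∏ j : J, (X - C (b j)) := by
    conv_lhs => rw [(IsAlgClosed.splits (R₀.map i)).eq_prod_roots_of_monic (hR₀.map i)]
    rw [Finset.prod_coe_sort (R₀.map i).roots.toFinset (fun r => (X - C r : L[X])),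
      Finset.prod, Multiset.toFinset_val, Multiset.dedup_eq_self.mpr hndR]
  -- the constants
  obtain ⟨M, hM1, hM⟩ := exists_bd (fun j : J => ‖b j‖)
  obtain ⟨μ, hμ0, hμ1, hμ⟩ := exists_mu
    (fun q : (J × J) × (J × J) => ‖b q.1.1 + b q.1.2 - b q.2.1 - b q.2.2‖)
    (fun q => b q.1.1 + b q.1.2 - b q.2.1 - b q.2.2 ≠ 0)
    (fun q hq => norm_pos_iff.mpr hq)
  have hsepb : ∀ j1 j4 j3 j2 : J, ‖b j1 + b j4 - b j3 - b j2‖ < μ →
      b j1 + b j4 = b j3 + b j2 := by
    intro j1 j4 j3 j2 h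
    by_contra hne
    have h1 := hμ ((j1, j4), (j3, j2)) (by
      dsimp only
      intro h0
      exact hne (by linear_combination h0))
    exact absurd h1 (not_le.mpr h)
  have hsep2 : ∀ j1 j2 : J, ‖b j1 - b j2‖ < μ → j1 = j2 := by
    intro j1 j2 h
    have h1 := hsepb j1 j2 j2 j2 (by
      have : b j1 + b j2 - b j2 - b j2 = b j1 - b j2 := by ring
      rwa [this])
    exact hbinj (by linear_combination h1)
  have hℓ1 : (1 : ℝ) < ℓ := by exact_mod_cast (Fact.out : ℓ.Prime).one_lt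
  have hℓ0 : (0 : ℝ) < ℓ := by linarith
  have hinv1 : (ℓ : ℝ)⁻¹ < 1 := inv_lt_one_of_one_lt₀ hℓ1
  have hinv0 : 0 < (ℓ : ℝ)⁻¹ := inv_pos.2 hℓ0
  have hM0 : 0 < M := by linarith
  obtain ⟨k₀, hk₀⟩ := exists_pow_lt_of_lt_one
    (show 0 < μ * (ℓ : ℝ)⁻¹ / M ^ 2 by positivity) hinv1
  have hεpos : 0 < μ ^ Fintype.card J / (2 * M ^ Fintype.card J) := by positivity
  have hε1 : μ ^ Fintype.card J / (2 * M ^ Fintype.card J) * M ^ Fintype.card J <
      μ ^ Fintype.card J := by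
    have h1 : μ ^ Fintype.card J / (2 * M ^ Fintype.card J) * M ^ Fintype.card J =
        μ ^ Fintype.card J / 2 := by field_simp
    rw [h1]
    have : 0 < μ ^ Fintype.card J := by positivity
    linarith
  refine ⟨μ ^ Fintype.card J / (2 * M ^ Fintype.card J), k₀, hεpos, ?_⟩
  intro k Q hk hQ hQdeg hQinv hcl
  obtain ⟨r, hrinj, hrb, hprod⟩ := near_split (b := b) (P := (resc ℓ k Q).map i) hμ0 hM1 hM
    (fun u v huv => by
      by_contra hlt
      push Not at hlt
      exact huv (hsep2 u v hlt))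
    hεpos.le hε1 ((resc_monic k hQ).map i)
    (by rw [natDegree_map, resc_natDegree, hQdeg, hcardJ])
    (fun j => by
      rw [← hprod0, ← Polynomial.map_sub, coeff_map, hnorm]
      exact (hcl j).le)
  have hLk : ((ℓ : ℚ_[ℓ]) ^ k) ≠ 0 := ell_pow_ne k
  set la : L := i ((ℓ : ℚ_[ℓ]) ^ k) with hla
  have hla0 : la ≠ 0 := (_root_.map_ne_zero _).2 hLk
  have hlan : ‖la‖ < μ * (ℓ : ℝ)⁻¹ / M ^ 2 := by
    rw [hla, hnorm, norm_pow, Padic.norm_p]
    exact (pow_le_pow_of_le_one hinv0.le hinv1.le hk).trans_lt hk₀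
  have hr1 : ∀ j, ‖r j‖ ≤ M := by
    intro j
    have h1 : r j = (r j - b j) + b j := by ring
    rw [h1]
    exact (IsUltrametricDist.norm_add_le_max _ _).trans
      (max_le ((hrb j).le.trans (hμ1.trans hM1)) (hM j))
  have hsmall : ∀ u v, ‖la * (r u * r v)‖ < μ * (ℓ : ℝ)⁻¹ := by
    intro u v
    rw [norm_mul, norm_mul]
    calc ‖la‖ * (‖r u‖ * ‖r v‖) ≤ ‖la‖ * (M * M) := by
          refine mul_le_mul_of_nonneg_left ?_ (norm_nonneg _)
          exact mul_le_mul (hr1 u) (hr1 v) (norm_nonneg _) hM0.le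
      _ < μ * (ℓ : ℝ)⁻¹ / M ^ 2 * (M * M) := mul_lt_mul_of_pos_right hlan (by positivity)
      _ = μ * (ℓ : ℝ)⁻¹ := by field_simp
  have hμℓ : μ * (ℓ : ℝ)⁻¹ ≤ μ := by
    have := mul_le_mul_of_nonneg_left hinv1.le hμ0.le
    linarith
  have hsmall' : ∀ u v, ‖la * (r u * r v)‖ < μ := fun u v => (hsmall u v).trans_le hμℓ
  have hlin : ∀ u, ‖la * r u‖ ≤ (ℓ : ℝ)⁻¹ := by
    intro u
    rw [norm_mul]
    calc ‖la‖ * ‖r u‖ ≤ (μ * (ℓ : ℝ)⁻¹ / M ^ 2) * M := by
          refine mul_le_mul hlan.le (hr1 u) (norm_nonneg _) (by positivity)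
      _ = μ * (ℓ : ℝ)⁻¹ / M := by field_simp
      _ ≤ 1 * (ℓ : ℝ)⁻¹ / 1 := by
          apply div_le_div₀ (by positivity) _ one_pos hM1
          exact mul_le_mul_of_nonneg_right hμ1 hinv0.le
      _ = (ℓ : ℝ)⁻¹ := by ring
  -- the roots of `Q`
  set q : J → L := fun j => 1 + la * r j with hq
  have hqinj : Function.Injective q := by
    intro u v huv
    simp only [hq, add_right_inj] at huv
    exact hrinj (mul_left_cancel₀ hla0 huv)
  have hrootR : ∀ s : L, aeval s (resc ℓ k Q) = 0 ↔ ∃ j, s = r j := by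
    intro s
    rw [aeval_def, ← eval_map, ← hi, hprod, eval_prod, Finset.prod_eq_zero_iff]
    simp [sub_eq_zero]
  have hQroot : ∀ x : L, aeval x Q = 0 → ∃ j, q j = x := by
    intro x hx
    have h1 := (aeval_resc k Q x).mpr hx
    obtain ⟨j, hj⟩ := (hrootR _).mp h1
    refine ⟨j, ?_⟩
    simp only [hq]
    rw [← hj, hla, mul_div_cancel₀ _ hla0]
    ring
  have hQroot' : ∀ j, aeval (q j) Q = 0 := by
    intro j
    have h1 : aeval (r j) (resc ℓ k Q) = 0 := (hrootR _).mpr ⟨j, rfl⟩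
    rw [aeval_resc'] at h1
    exact h1
  have hsepR : (resc ℓ k Q).Separable := by
    refine (separable_map i).mp ?_
    rw [hprod]
    exact (separable_prod_X_sub_C_iff (f := r)).mpr hrinj
  -- inverse
  have hinvq : ∀ j j' : J, b j' = - b j → q j' = (q j)⁻¹ := by
    intro j j' hjj
    obtain ⟨h1, h2⟩ := hQinv _ (hQroot' j)
    obtain ⟨j'', hj''⟩ := hQroot _ h2
    have h3 : q j * q j'' = 1 := by rw [hj'', mul_inv_cancel₀ h1]
    have h4 : r j + r j'' = - (la * (r j * r j'')) := by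
      apply mul_left_cancel₀ hla0
      simp only [hq] at h3
      linear_combination h3
    have h5 : ‖r j + r j''‖ < μ := by
      rw [h4, norm_neg]
      exact hsmall' _ _
    have h6 : j'' = j' := by
      apply hsep2
      have : b j'' - b j' = (r j + r j'') - (r j - b j) - (r j'' - b j'') := by
        rw [hjj]; ring
      rw [this]
      exact um_sub (um_sub h5 (hrb j)) (hrb j'')
    rw [← h6, hj'']
  -- equivariance
  have hequiv : ∀ (τ : L ≃ₐ[ℚ_[ℓ]] L) (j j' : J), b j' = τ (b j) → q j' = τ (q j) := by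
    intro τ j j' hjj
    have h1 : aeval (τ (r j)) (resc ℓ k Q) = 0 := root_aut τ ((hrootR _).mpr ⟨j, rfl⟩)
    obtain ⟨j'', hj''⟩ := (hrootR _).mp h1
    have h2 : ‖r j'' - b j'‖ < μ := by
      rw [← hj'', hjj, ← map_sub, norm_inv']
      exact hrb j
    have h3 : j'' = j' := by
      apply hsep2
      have : b j'' - b j' = (r j'' - b j') - (r j'' - b j'') := by ring
      rw [this]
      exact um_sub h2 (hrb j'')
    simp only [hq]
    rw [map_add, map_one, map_mul, hj'', h3]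
    congr 2
    exact (τ.commutes _).symm
  refine ⟨separable_of_resc k hsepR, ?_, ?_, ?_⟩
  · -- distinct powers
    intro j x y hj hx hy hxy
    obtain ⟨u, rfl⟩ := hQroot x hx
    obtain ⟨v, rfl⟩ := hQroot y hy
    refine Pool.Agent.Y547.ZI.t1 ℓ hℓ2 _ _ j hj ?_ ?_ hxy
    · have : q u - 1 = la * r u := by simp only [hq]; ring
      rw [this]
      exact hlin u
    · have : q v - 1 = la * r v := by simp only [hq]; ring
      rw [this]
      exact hlin v
  · -- generic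
    intro hgen x y z w hx hy hz hw hxy hmul
    obtain ⟨j1, rfl⟩ := hQroot x hx
    obtain ⟨j2, rfl⟩ := hQroot y hy
    obtain ⟨j3, rfl⟩ := hQroot z hz
    obtain ⟨j4, rfl⟩ := hQroot w hw
    have h12 : b j1 ≠ b j2 := fun e => hxy (by rw [hbinj e])
    have hsum : r j1 + r j4 - r j3 - r j2 = la * (r j3 * r j2) - la * (r j1 * r j4) := by
      apply mul_left_cancel₀ hla0
      simp only [hq] at hmul
      linear_combination hmul
    have hB : b j1 + b j4 = b j3 + b j2 := by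
      apply hsepb
      have h9 : b j1 + b j4 - b j3 - b j2 =
          (r j1 + r j4 - r j3 - r j2) - (r j1 - b j1) - (r j4 - b j4) +
            (r j3 - b j3) + (r j2 - b j2) := by ring
      rw [h9]
      refine um_add (um_add (um_sub (um_sub ?_ (hrb j1)) (hrb j4)) (hrb j3)) (hrb j2)
      rw [hsum]
      exact um_sub (hsmall' _ _) (hsmall' _ _)
    rcases hgen (b j1) (b j2) (b j3) (b j4) ((hroot0 _).mpr ⟨_, rfl⟩) ((hroot0 _).mpr ⟨_, rfl⟩)
      ((hroot0 _).mpr ⟨_, rfl⟩) ((hroot0 _).mpr ⟨_, rfl⟩) h12 hB with ⟨e1, e2⟩ | ⟨e1, e2⟩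
    · left
      rw [hbinj e1, hbinj e2]
      exact ⟨rfl, rfl⟩
    · right
      have h3 : q j3 = (q j2)⁻¹ := hinvq j2 j3 (by linear_combination e1)
      have h4 : q j4 = (q j1)⁻¹ := hinvq j1 j4 (by linear_combination e2)
      have hne2 : q j2 ≠ 0 := (hQinv _ hy).1
      have hne1 : q j1 ≠ 0 := (hQinv _ hx).1
      rw [h3, h4, inv_mul_cancel₀ hne2, inv_mul_cancel₀ hne1, map_one]
      exact ⟨rfl, rfl⟩
  · -- the bijection
    set φ : L → L := fun s => if h : aeval s R₀ = 0 then q (Classical.choose ((hroot0 s).mp h))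
      else 0 with hφ
    have hφb : ∀ j, φ (b j) = q j := by
      intro j
      have h : aeval (b j) R₀ = 0 := (hroot0 _).mpr ⟨j, rfl⟩
      have h1 := Classical.choose_spec ((hroot0 (b j)).mp h)
      simp only [hφ]
      rw [dif_pos h, hbinj h1]
    refine ⟨φ, ?_, ?_, ?_, ?_, ?_⟩
    · intro s hs
      obtain ⟨j, rfl⟩ := (hroot0 s).mp hs
      rw [hφb]
      exact hQroot' j
    · intro s s' hs hs' h
      obtain ⟨j, rfl⟩ := (hroot0 s).mp hs
      obtain ⟨j', rfl⟩ := (hroot0 s').mp hs'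
      rw [hφb, hφb] at h
      rw [hqinj h]
    · intro x hx
      obtain ⟨j, rfl⟩ := hQroot x hx
      exact ⟨b j, (hroot0 _).mpr ⟨j, rfl⟩, hφb j⟩
    · intro s hs
      obtain ⟨j, rfl⟩ := (hroot0 s).mp hs
      have h1 : aeval (-(b j)) R₀ = 0 := by
        rw [← heven, aeval_comp, map_neg, aeval_X, neg_neg]
        exact hs
      obtain ⟨j', hj'⟩ := (hroot0 _).mp h1
      rw [← hj', hφb, hφb]
      exact hinvq j j' hj'
    · intro τ s hs
      obtain ⟨j, rfl⟩ := (hroot0 s).mp hs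
      obtain ⟨j', hj'⟩ := (hroot0 _).mp (root_aut τ hs)
      rw [← hj', hφb, hφb]
      exact hequiv τ j j' hj'

end Pool.Agent.Y331.ZD
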